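import Mathlib

/-!
# A section without involutions

A torsion group all of whose 2-subgroups are finite, with infinite centralizers, has an infinite
section without involutions, of the form `C ⧸ Z` with `Z` finite and central in `C`: `C` is the
centralizer of a maximal 2-subgroup `S` and `Z = S ∩ C`.
-/

set_option autoImplicit false

namespace Pool.Agent.SHAT36

theorem odd_section {G : Type} [Group G] [Infinite G] (ht : ∀ x : G, IsOfFinOrder x)
    (hfin : ∀ P : Subgroup G, IsPGroup 2 P → Finite P)
    (hin : ∀ Q : Subgroup G, IsPGroup 2 Q → {x : G | ∀ q ∈ Q, x * q = q * x}.Infinite) :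
    ∃ (C : Subgroup G) (Z : Subgroup C) (_ : Z.Normal), Finite Z ∧ Z ≤ Subgroup.center C ∧
      Infinite (C ⧸ Z) ∧ ∀ x : C ⧸ Z, Odd (orderOf x) := by
  classical
  obtain ⟨S⟩ : Nonempty (Sylow 2 G) := inferInstance
  have hS2 : IsPGroup 2 (S : Subgroup G) := S.2
  have hSfin : Finite (S : Subgroup G) := hfin _ hS2
  let C : Subgroup G := Subgroup.centralizer ((S : Subgroup G) : Set G)
  let Z : Subgroup C := (S : Subgroup G).subgroupOf C
  have hCmem : ∀ {x : G}, x ∈ C ↔ ∀ q ∈ (S : Subgroup G), q * x = x * q := by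
    intro x
    exact Subgroup.mem_centralizer_iff
  have hZmem : ∀ {x : C}, x ∈ Z ↔ (x : G) ∈ (S : Subgroup G) := by
    intro x
    exact Subgroup.mem_subgroupOf
  have hZfin : Finite Z := by
    refine Finite.of_injective (fun z : Z => (⟨((z : C) : G), hZmem.1 z.2⟩ : (S : Subgroup G))) ?_
    intro a b hab
    apply Subtype.ext
    apply Subtype.ext
    exact congrArg (fun t : (S : Subgroup G) => (t : G)) hab
  have hZc : Z ≤ Subgroup.center C := by
    intro z hz
    rw [Subgroup.mem_center_iff]
    intro c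
    apply Subtype.ext
    exact (hCmem.1 c.2 (z : G) (hZmem.1 hz)).symm
  have hZn : Z.Normal := by
    refine ⟨fun z hz c => ?_⟩
    have h := Subgroup.mem_center_iff.1 (hZc hz) c
    rw [h, mul_inv_cancel_right]
    exact hz
  have hCinf : Infinite C := by
    have h1 := hin (S : Subgroup G) hS2
    have h2 : (C : Set G).Infinite := by
      refine h1.mono ?_
      intro x hx
      exact hCmem.2 fun q hq => (hx q hq).symm
    exact h2.to_subtype
  refine ⟨C, Z, hZn, hZfin, hZc, ?_, ?_⟩
  · by_contra hnot
    have hq : Finite (C ⧸ Z) := not_infinite_iff_finite.1 hnot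
    have h3 : Finite ((C ⧸ Z) × Z) := inferInstance
    have h4 : Finite C := Finite.of_equiv _ (Subgroup.groupEquivQuotientProdSubgroup (s := Z)).symm
    exact not_finite C
  · intro x
    by_contra hodd
    rw [Nat.not_odd_iff_even] at hodd
    obtain ⟨y0, rfl⟩ := QuotientGroup.mk_surjective x
    have hfo : IsOfFinOrder (QuotientGroup.mk y0 : C ⧸ Z) := by
      obtain ⟨n, hn, h⟩ := isOfFinOrder_iff_pow_eq_one.1 (ht (y0 : G))
      refine isOfFinOrder_iff_pow_eq_one.2 ⟨n, hn, ?_⟩
      have h5 : y0 ^ n = 1 := by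
        apply Subtype.ext
        simpa using h
      rw [← QuotientGroup.mk_pow, h5, QuotientGroup.mk_one]
    have hpos : 0 < orderOf (QuotientGroup.mk y0 : C ⧸ Z) := hfo.orderOf_pos
    obtain ⟨m, hm⟩ := hodd
    have hm0 : 0 < m := by omega
    -- `w = x ^ m` has order two
    have hw1 : (QuotientGroup.mk (y0 ^ m) : C ⧸ Z) ≠ 1 := by
      rw [QuotientGroup.mk_pow]
      intro h
      have := orderOf_dvd_of_pow_eq_one h
      have := Nat.le_of_dvd hm0 this
      omega
    have hw2 : (QuotientGroup.mk ((y0 ^ m) ^ 2) : C ⧸ Z) = 1 := by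
      rw [← pow_mul, QuotientGroup.mk_pow, mul_two, ← hm, pow_orderOf_eq_one]
    have hyZ : y0 ^ m ∉ Z := fun h => hw1 ((QuotientGroup.eq_one_iff _).2 h)
    have hy2 : (y0 ^ m) ^ 2 ∈ Z := (QuotientGroup.eq_one_iff _).1 hw2
    set y : G := ((y0 ^ m : C) : G) with hy
    have hyC : y ∈ C := (y0 ^ m).2
    have hyS : y ∉ (S : Subgroup G) := fun h => hyZ (hZmem.2 h)
    have hy2S : y ^ 2 ∈ (S : Subgroup G) := by
      have := hZmem.1 hy2
      simpa [hy] using this
    have hp : IsPGroup 2 (Subgroup.zpowers y) := by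
      obtain ⟨k, hk⟩ := hS2 ⟨y ^ 2, hy2S⟩
      have hk' : (y ^ 2) ^ 2 ^ k = 1 := by
        have := congrArg Subtype.val hk
        simpa using this
      have hk2 : y ^ 2 ^ (k + 1) = 1 := by
        rw [pow_succ, mul_comm, pow_mul]
        exact hk'
      rintro ⟨g, hg⟩
      obtain ⟨j, rfl⟩ := Subgroup.mem_zpowers_iff.1 hg
      refine ⟨k + 1, ?_⟩
      apply Subtype.ext
      have h6 : (y ^ j) ^ 2 ^ (k + 1) = 1 := by
        rw [← zpow_natCast, ← zpow_mul, mul_comm, zpow_mul, zpow_natCast, hk2, one_zpow]
      simpa using h6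
    have hnorm : Subgroup.zpowers y ≤ Subgroup.normalizer ((S : Subgroup G) : Set G) := by
      rw [Subgroup.zpowers_le]
      rw [Subgroup.mem_normalizer_iff]
      intro h
      constructor
      · intro hh
        have h8 := hCmem.1 hyC h hh
        rw [← h8, mul_inv_cancel_right]
        exact hh
      · intro hh
        have h8 := hCmem.1 hyC _ hh
        have h9 : y * h * y⁻¹ = h := by
          have : y * h = y * (y * h * y⁻¹) := by
            rw [← h8]
            group
          have h10 := mul_left_cancel this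
          exact h10.symm
        rw [h9] at hh
        exact hh
    have hsup : IsPGroup 2 (Subgroup.zpowers y ⊔ (S : Subgroup G) : Subgroup G) :=
      IsPGroup.to_sup_of_normal_right' hp hS2 hnorm
    have heq := S.is_maximal' hsup le_sup_right
    apply hyS
    have h7 : y ∈ (Subgroup.zpowers y ⊔ (S : Subgroup G) : Subgroup G) :=
      le_sup_left (a := Subgroup.zpowers y) (Subgroup.mem_zpowers y)
    rw [heq] at h7
    exact h7

end Pool.Agent.SHAT36
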