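import Mathlib

/-! Sylow 2-subgroups of torsion groups with finite 2-subgroups are conjugate. -/

namespace Pool.Agent.SHAT36

/-- two involutions with a product of finite order lie in a finite subgroup -/
theorem dihedral_finite {H : Type} [Group H] (a b : H) (ha : a * a = 1) (hb : b * b = 1)
    (hab : IsOfFinOrder (a * b)) : ∃ K : Subgroup H, Finite K ∧ a ∈ K ∧ b ∈ K := by
  have ha' : a⁻¹ = a := inv_eq_of_mul_eq_one_left ha
  have hb' : b⁻¹ = b := inv_eq_of_mul_eq_one_left hb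
  have hconj : ∀ l : ℤ, a * (a * b) ^ l = (a * b) ^ (-l) * a := by
    intro l
    have h1 : a * (a * b) * a⁻¹ = (a * b)⁻¹ := by
      rw [mul_inv_rev, hb', ha', ← mul_assoc, ha, one_mul]
    have h2 : a * (a * b) ^ l * a⁻¹ = (a * b) ^ (-l) := by
      rw [← conj_zpow, h1, inv_zpow, zpow_neg]
    rw [← h2, mul_assoc, inv_mul_cancel, mul_one]
  let K : Subgroup H :=
    { carrier := {g | ∃ k : ℤ, g = (a * b) ^ k ∨ g = (a * b) ^ k * a}
      mul_mem' := by
        rintro x y ⟨k, hx⟩ ⟨l, hy⟩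
        rcases hx with hx | hx <;> rcases hy with hy | hy
        · exact ⟨k + l, Or.inl (by rw [hx, hy, zpow_add])⟩
        · exact ⟨k + l, Or.inr (by rw [hx, hy, zpow_add, mul_assoc])⟩
        · exact ⟨k + -l, Or.inr (by rw [hx, hy, mul_assoc, hconj, ← mul_assoc, ← zpow_add])⟩
        · refine ⟨k + -l, Or.inl ?_⟩
          rw [hx, hy, mul_assoc, ← mul_assoc a, hconj, mul_assoc, ha, mul_one, ← zpow_add]
      one_mem' := ⟨0, Or.inl (by rw [zpow_zero])⟩
      inv_mem' := by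
        rintro x ⟨k, hx⟩
        rcases hx with hx | hx
        · exact ⟨-k, Or.inl (by rw [hx, zpow_neg])⟩
        · refine ⟨k, Or.inr ?_⟩
          rw [hx, mul_inv_rev, ha', ← zpow_neg, hconj, neg_neg] }
  refine ⟨K, ?_, ?_, ?_⟩
  · have h1 : ((Subgroup.zpowers (a * b) : Set H)).Finite := hab.finite_zpowers
    have h2 : ((Subgroup.zpowers (a * b) : Set H) ∪
        (fun g => g * a) '' (Subgroup.zpowers (a * b) : Set H)).Finite := h1.union (h1.image _)
    refine (h2.subset ?_ : ((K : Subgroup H) : Set H).Finite).to_subtype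
    rintro x ⟨k, hx⟩
    rcases hx with hx | hx
    · exact Or.inl ⟨k, hx.symm⟩
    · exact Or.inr ⟨(a * b) ^ k, ⟨k, rfl⟩, hx.symm⟩
  · exact ⟨0, Or.inr (by rw [zpow_zero, one_mul])⟩
  · refine ⟨-1, Or.inr ?_⟩
    rw [zpow_neg, zpow_one, mul_inv_rev, ha', hb', mul_assoc, ha, mul_one]

/-- elements normalising a finite subgroup, with squares in it, generate with it a finite group -/
theorem finite_over {G : Type} [Group G] (ht : ∀ x : G, IsOfFinOrder x) (D : Subgroup G)
    (hD : Finite D) (i j : G) (hi : i ∈ Subgroup.normalizer (D : Set G))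
    (hj : j ∈ Subgroup.normalizer (D : Set G))
    (hi2 : i ^ 2 ∈ D) (hj2 : j ^ 2 ∈ D) :
    ∃ L : Subgroup G, Finite L ∧ D ≤ L ∧ i ∈ L ∧ j ∈ L := by
  let N : Subgroup G := Subgroup.normalizer (D : Set G)
  let D' : Subgroup N := D.subgroupOf N
  haveI hn : D'.Normal := Subgroup.normal_in_normalizer
  let i' : N := ⟨i, hi⟩
  let j' : N := ⟨j, hj⟩
  have ei : (QuotientGroup.mk i' : N ⧸ D') * QuotientGroup.mk i' = 1 := by
    rw [← QuotientGroup.mk_mul, QuotientGroup.eq_one_iff]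
    show (i * i : G) ∈ D
    rw [← pow_two]; exact hi2
  have ej : (QuotientGroup.mk j' : N ⧸ D') * QuotientGroup.mk j' = 1 := by
    rw [← QuotientGroup.mk_mul, QuotientGroup.eq_one_iff]
    show (j * j : G) ∈ D
    rw [← pow_two]; exact hj2
  have eo : IsOfFinOrder ((QuotientGroup.mk i' : N ⧸ D') * QuotientGroup.mk j') := by
    rw [← QuotientGroup.mk_mul]
    have h1 : IsOfFinOrder (i' * j') := by
      have h2 : IsOfFinOrder ((i' * j' : N) : G) := ht _
      exact (Submonoid.isOfFinOrder_coe (H := N.toSubmonoid)).1 h2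
    exact (QuotientGroup.mk' D').isOfFinOrder h1
  obtain ⟨K, hK, hiK, hjK⟩ := dihedral_finite _ _ ei ej eo
  haveI hD'f : Finite D' := by
    have : Function.Injective (fun x : D' => (⟨((x : N) : G), x.2⟩ : D)) := by
      intro x y hxy
      apply Subtype.ext
      apply Subtype.ext
      exact congrArg (fun z : D => (z : G)) hxy
    exact Finite.of_injective _ this
  have hpre : ((QuotientGroup.mk' D') ⁻¹' (K : Set (N ⧸ D'))).Finite := by
    refine Set.Finite.preimage' (Set.toFinite _) ?_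
    intro b _
    obtain ⟨g, rfl⟩ := QuotientGroup.mk'_surjective D' b
    have h1 : ((fun d : N => g * d) '' (D' : Set N)).Finite := (Set.toFinite _).image _
    refine h1.subset ?_
    intro y hy
    have hy' : (QuotientGroup.mk' D') y = (QuotientGroup.mk' D') g := hy
    refine ⟨g⁻¹ * y, ?_, by simp⟩
    exact QuotientGroup.eq.1 hy'.symm
  refine ⟨(K.comap (QuotientGroup.mk' D')).map N.subtype, ?_, ?_, ?_, ?_⟩
  · have : (((K.comap (QuotientGroup.mk' D')).map N.subtype : Subgroup G) : Set G).Finite := by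
      rw [Subgroup.coe_map]
      exact hpre.image _
    exact this.to_subtype
  · intro d hd
    refine ⟨⟨d, Subgroup.le_normalizer hd⟩, ?_, rfl⟩
    show (QuotientGroup.mk' D') _ ∈ K
    have : (QuotientGroup.mk' D') (⟨d, Subgroup.le_normalizer hd⟩ : N) = 1 :=
      (QuotientGroup.eq_one_iff _).2 hd
    rw [this]; exact K.one_mem
  · exact ⟨i', hiK, rfl⟩
  · exact ⟨j', hjK, rfl⟩

/-- normalisers grow in finite 2-groups -/
theorem grow {G : Type} [Group G] (A : Subgroup G) (hA : IsPGroup 2 A) (hAf : Finite A)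
    (D : Subgroup G) (hD : D ≤ A) (hne : D ≠ A) :
    ∃ i ∈ A, i ∉ D ∧ i ∈ Subgroup.normalizer (D : Set G) ∧ i ^ 2 ∈ D := by
  haveI : Fact (Nat.Prime 2) := ⟨Nat.prime_two⟩
  haveI := hAf
  haveI hnil : Group.IsNilpotent A := hA.isNilpotent
  have hlt : D.subgroupOf A < ⊤ := by
    rw [lt_top_iff_ne_top]
    intro h
    rw [Subgroup.subgroupOf_eq_top] at h
    exact hne (le_antisymm hD h)
  have h1 := Group.normalizerCondition_of_isNilpotent (G := A) (D.subgroupOf A) hlt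
  obtain ⟨x, hx1, hx2⟩ := SetLike.exists_of_lt h1
  have hxD : (x : G) ∉ D := fun h => hx2 h
  have hxN : (x : G) ∈ Subgroup.normalizer (D : Set G) := by
    rw [Subgroup.mem_normalizer_iff] at hx1 ⊢
    intro d
    constructor
    · intro hd
      exact (hx1 ⟨d, hD hd⟩).1 hd
    · intro hd
      have hdA : (x : G) * d * (x : G)⁻¹ ∈ A := hD hd
      have hdA' : d ∈ A := by
        have h3 : (x : G)⁻¹ * ((x : G) * d * (x : G)⁻¹) * x ∈ A :=
          A.mul_mem (A.mul_mem (A.inv_mem x.2) hdA) x.2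
        have h4 : (x : G)⁻¹ * ((x : G) * d * (x : G)⁻¹) * x = d := by group
        rwa [h4] at h3
      exact (hx1 ⟨d, hdA'⟩).2 hd
  have hex : ∃ k : ℕ, (x : G) ^ 2 ^ k ∈ D := by
    obtain ⟨k, hk⟩ := hA x
    refine ⟨k, ?_⟩
    have : ((x ^ 2 ^ k : A) : G) = 1 := by rw [hk]; rfl
    rw [Subgroup.coe_pow] at this
    rw [this]; exact D.one_mem
  classical
  let k := Nat.find hex
  have hk : (x : G) ^ 2 ^ k ∈ D := Nat.find_spec hex
  have hk0 : k ≠ 0 := by
    intro h
    rw [h, pow_zero, pow_one] at hk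
    exact hxD hk
  obtain ⟨m, hm⟩ := Nat.exists_eq_succ_of_ne_zero hk0
  have hm' : ¬ (x : G) ^ 2 ^ m ∈ D := Nat.find_min hex (by show m < k; omega)
  refine ⟨(x : G) ^ 2 ^ m, A.pow_mem x.2 _, hm', Subgroup.pow_mem _ hxN _, ?_⟩
  rw [← pow_mul, ← pow_succ, ← Nat.succ_eq_add_one, ← hm]
  exact hk

theorem card_lt {G : Type} [Group G] {H K : Subgroup G} (hK : Finite K) (h : H ≤ K) {i : G}
    (hi : i ∈ K) (hi' : i ∉ H) : Nat.card H < Nat.card K := by
  have h1 : (H : Set G) ⊂ (K : Set G) :=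
    ⟨h, fun h2 => hi' (h2 hi)⟩
  exact Set.ncard_lt_ncard h1 (Set.toFinite _)

/-- the step: two different Sylow 2-subgroups -/
theorem step {G : Type} [Group G] (ht : ∀ x : G, IsOfFinOrder x)
    (hfin : ∀ P : Subgroup G, IsPGroup 2 P → Finite P) (A B : Sylow 2 G) (hne : A ≠ B) :
    ∃ (M : Sylow 2 G) (x : G),
      Nat.card ((A : Subgroup G) ⊓ B : Subgroup G) < Nat.card ((A : Subgroup G) ⊓ M : Subgroup G) ∧
      Nat.card ((A : Subgroup G) ⊓ B : Subgroup G) <
        Nat.card (((x • M : Sylow 2 G) : Subgroup G) ⊓ B : Subgroup G) := by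
  haveI : Fact (Nat.Prime 2) := ⟨Nat.prime_two⟩
  haveI hAf : Finite (A : Subgroup G) := hfin _ A.2
  haveI hBf : Finite (B : Subgroup G) := hfin _ B.2
  let D : Subgroup G := (A : Subgroup G) ⊓ B
  have hDA : D ≤ A := inf_le_left
  have hDB : D ≤ B := inf_le_right
  have hDf : Finite D := hfin _ (A.2.to_le hDA)
  have hneA : D ≠ A := by
    intro h
    have h1 : (A : Subgroup G) ≤ B := by rw [← h]; exact hDB
    exact hne (Sylow.ext (A.3 B.2 h1).symm)
  have hneB : D ≠ B := by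
    intro h
    have h1 : (B : Subgroup G) ≤ A := by rw [← h]; exact hDA
    exact hne (Sylow.ext (B.3 A.2 h1))
  obtain ⟨i, hiA, hiD, hiN, hi2⟩ := grow (A : Subgroup G) A.2 hAf D hDA hneA
  obtain ⟨j, hjB, hjD, hjN, hj2⟩ := grow (B : Subgroup G) B.2 hBf D hDB hneB
  obtain ⟨L, hLf, hDL, hiL, hjL⟩ := finite_over ht D hDf i j hiN hjN hi2 hj2
  haveI := hLf
  have hA1 : IsPGroup 2 ((A : Subgroup G).subgroupOf L) := A.2.comap_subtype
  have hB1 : IsPGroup 2 ((B : Subgroup G).subgroupOf L) := B.2.comap_subtype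
  obtain ⟨RA, hRA⟩ := hA1.exists_le_sylow
  obtain ⟨RB, hRB⟩ := hB1.exists_le_sylow
  obtain ⟨x, hx⟩ := MulAction.exists_smul_eq L RA RB
  have hM0 : IsPGroup 2 ((RA : Subgroup L).map L.subtype) := RA.2.map _
  obtain ⟨M, hM⟩ := hM0.exists_le_sylow
  have hmemM : ∀ g : G, g ∈ (A : Subgroup G) → g ∈ L → g ∈ (M : Subgroup G) := by
    intro g hgA hgL
    exact hM ⟨⟨g, hgL⟩, hRA hgA, rfl⟩
  have hmemMx : ∀ g : G, g ∈ (B : Subgroup G) → g ∈ L → g ∈ ((((x : G) • M : Sylow 2 G)) : Subgroup G) := by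
    intro g hgB hgL
    have h1 : (⟨g, hgL⟩ : L) ∈ (RB : Subgroup L) := hRB hgB
    rw [← hx] at h1
    have h2 : (⟨g, hgL⟩ : L) ∈ (((x • RA : Sylow 2 L)) : Subgroup L) := h1
    rw [Sylow.coe_subgroup_smul] at h2
    rw [Sylow.coe_subgroup_smul]
    rw [Subgroup.mem_pointwise_smul_iff_inv_smul_mem] at h2 ⊢
    have h3 : (((MulAut.conj x)⁻¹ • (⟨g, hgL⟩ : L) : L) : G) ∈ (M : Subgroup G) :=
      hM ⟨_, h2, rfl⟩
    exact h3
  refine ⟨M, x, ?_, ?_⟩
  · haveI : Finite ((A : Subgroup G) ⊓ M : Subgroup G) := hfin _ (A.2.to_le inf_le_left)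
    refine card_lt this ?_ (i := i) ⟨hiA, hmemM i hiA hiL⟩ hiD
    intro d hd
    exact ⟨hd.1, hmemM d hd.1 (hDL hd)⟩
  · haveI : Finite ((((x : G) • M : Sylow 2 G) : Subgroup G) ⊓ B : Subgroup G) :=
      hfin _ (B.2.to_le inf_le_right)
    refine card_lt this ?_ (i := j) ⟨hmemMx j hjB hjL, hjB⟩ hjD
    intro d hd
    exact ⟨hmemMx d hd.2 (hDL hd), hd.2⟩

theorem smul_conj {G : Type} [Group G] (g : G) (P : Sylow 2 G) :
    ((g • P : Sylow 2 G) : Subgroup G) = (P : Subgroup G).map (MulAut.conj g).toMonoidHom := by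
  rw [Sylow.coe_subgroup_smul]
  rfl

theorem sylow_conj {G : Type} [Group G] (ht : ∀ x : G, IsOfFinOrder x)
    (hfin : ∀ P : Subgroup G, IsPGroup 2 P → Finite P) (P Q : Sylow 2 G) :
    ∃ g : G, (Q : Subgroup G) = (P : Subgroup G).map (MulAut.conj g).toMonoidHom := by
  suffices h : ∃ g : G, Q = g • P by
    obtain ⟨g, hg⟩ := h
    exact ⟨g, by rw [hg, smul_conj]⟩
  by_contra hcon
  have key : ∀ n : ℕ, ∃ (g : G) (B : Sylow 2 G), (¬ ∃ g' : G, B = g' • P) ∧
      n ≤ Nat.card (((g • P : Sylow 2 G) : Subgroup G) ⊓ B : Subgroup G) := by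
    intro n
    induction n with
    | zero => exact ⟨1, Q, hcon, Nat.zero_le _⟩
    | succ n ih =>
      obtain ⟨g, B, hB, hn⟩ := ih
      obtain ⟨M, x, h1, h2⟩ := step ht hfin (g • P) B (fun h => hB ⟨g, h.symm⟩)
      by_cases hM : ∃ g' : G, M = g' • P
      · obtain ⟨g', hg'⟩ := hM
        refine ⟨x * g', B, hB, ?_⟩
        rw [mul_smul, ← hg']
        omega
      · exact ⟨g, M, hM, by omega⟩
  obtain ⟨g, B, _, hn⟩ := key (Nat.card (P : Subgroup G) + 1)
  haveI : Finite (P : Subgroup G) := hfin _ P.2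
  haveI hgf : Finite ((g • P : Sylow 2 G) : Subgroup G) := hfin _ (g • P).2
  have h3 : Nat.card (((g • P : Sylow 2 G) : Subgroup G) ⊓ B : Subgroup G) ≤
      Nat.card ((g • P : Sylow 2 G) : Subgroup G) :=
    Subgroup.card_le_of_le inf_le_left
  have h4 : Nat.card ((g • P : Sylow 2 G) : Subgroup G) = Nat.card (P : Subgroup G) := by
    rw [smul_conj]
    exact Nat.card_congr ((P : Subgroup G).equivMapOfInjective _ (MulAut.conj g).injective).toEquiv.symm
  omega

end Pool.Agent.SHAT36
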