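import Mathlib
import Pool.Agent.SHA.Defs

/-!
# Centralisers of 2-subgroups and of 2-groups of automorphisms, from the case of one involution
-/

set_option autoImplicit false

namespace Pool.Agent.SHAT36

open Set Pool.Agent.SHA

/-- if the automorphisms of a finite set `Q` move the elements of an infinite set `L` only by
factors from a finite set, then infinitely many elements are fixed by `Q` -/
theorem pigAut {G : Type*} [Group G] {Q : Set (MulAut G)} (hQ : Q.Finite) {Z : Set G}
    (hZ : Z.Finite) {L : Set G} (hL : L.Infinite) (h : ∀ g ∈ L, ∀ φ ∈ Q, g⁻¹ * φ g ∈ Z) :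
    {g : G | ∀ φ ∈ Q, φ g = g}.Infinite := by
  classical
  intro hfin
  apply hL
  have : Finite Q := hQ
  have hfib : ∀ y : Q → G, {g ∈ L | (fun φ : Q => g⁻¹ * (φ : MulAut G) g) = y}.Finite := by
    intro y
    by_cases hne : ∃ g₀ ∈ L, (fun φ : Q => g₀⁻¹ * (φ : MulAut G) g₀) = y
    · obtain ⟨g₀, _, h0⟩ := hne
      refine (hfin.image (fun c => c * g₀)).subset ?_
      rintro g ⟨_, hg⟩
      refine ⟨g * g₀⁻¹, ?_, by simp⟩
      intro φ hφ
      have h1 : g₀⁻¹ * φ g₀ = g⁻¹ * φ g := by
        have h2 := congrFun (h0.trans hg.symm) ⟨φ, hφ⟩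
        exact h2
      have h3 : φ g₀ = g₀ * (g⁻¹ * φ g) := by rw [← h1]; group
      rw [map_mul, map_inv, h3]
      group
    · have : {g ∈ L | (fun φ : Q => g⁻¹ * (φ : MulAut G) g) = y} = ∅ := by
        refine eq_empty_of_forall_notMem ?_
        rintro g ⟨h1, h2⟩
        exact hne ⟨g, h1, h2⟩
      rw [this]
      exact finite_empty
  have hcod : {y : Q → G | ∀ φ, y φ ∈ Z}.Finite :=
    Set.Finite.pi' (t := fun _ : Q => Z) fun _ => hZ
  refine (hcod.biUnion fun y _ => hfib y).subset ?_
  intro g hg
  simp only [mem_iUnion]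
  exact ⟨fun φ : Q => g⁻¹ * (φ : MulAut G) g, fun φ => h g hg φ φ.2, hg, rfl⟩

/-- the same for conjugations -/
theorem pig {G : Type*} [Group G] {Q : Set G} (hQ : Q.Finite) {Z : Set G}
    (hZ : Z.Finite) {L : Set G} (hL : L.Infinite) (h : ∀ g ∈ L, ∀ q ∈ Q, g⁻¹ * (q * g * q⁻¹) ∈ Z) :
    {g : G | ∀ q ∈ Q, g * q = q * g}.Infinite := by
  have h1 := pigAut (Q := (fun q => MulAut.conj q) '' Q) (hQ.image _) hZ hL (by
    rintro g hg φ ⟨q, hq, rfl⟩
    exact h g hg q hq)
  refine h1.mono ?_
  intro g hg q hq
  have h2 : MulAut.conj q g = g := hg _ ⟨q, hq, rfl⟩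
  rw [MulAut.conj_apply] at h2
  calc g * q = (q * g * q⁻¹) * q := by rw [h2]
    _ = q * g := by group

variable {K : (G : Type) → [Group G] → Prop}

/-- the statement on involutions -/
def Base (K : (G : Type) → [Group G] → Prop) : Prop :=
  ∀ (A : Type) [Group A], K A → Infinite A → (∀ g : A, IsOfFinOrder g) →
    ∀ t : A, t ≠ 1 → t * t = 1 → {g : A | g * t = t * g}.Infinite

theorem inner (hK : SHAClosed K) (hB : Base K) : ∀ (n : ℕ) (A : Type) [Group A], K A →
    Infinite A → (∀ g : A, IsOfFinOrder g) → ∀ Q : Subgroup A, IsPGroup 2 Q → Finite Q →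
    Nat.card Q ≤ n → {g : A | ∀ q ∈ (Q : Set A), g * q = q * g}.Infinite := by
  intro n
  induction n with
  | zero =>
    intro A _ _ _ _ Q _ _ hc
    have := Nat.card_pos (α := Q)
    omega
  | succ n ih =>
    intro A _ hA hinf htor Q hQ hfin hc
    rcases subsingleton_or_nontrivial Q with hs | hn
    · have h1 : {g : A | ∀ q ∈ (Q : Set A), g * q = q * g} = univ := by
        refine eq_univ_of_forall fun g q hq => ?_
        have h2 : (⟨q, hq⟩ : Q) = 1 := Subsingleton.elim _ _
        have h3 : q = 1 := congrArg Subtype.val h2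
        rw [h3, mul_one, one_mul]
      rw [h1]
      exact infinite_univ
    · have : Fact (Nat.Prime 2) := ⟨Nat.prime_two⟩
      have hcn : Nontrivial (Subgroup.center Q) := hQ.center_nontrivial
      obtain ⟨m, hm⟩ := (IsPGroup.iff_card (p := 2)).1 (hQ.to_subgroup (Subgroup.center Q))
      have hm0 : m ≠ 0 := by
        rintro rfl
        rw [pow_zero] at hm
        have := Finite.one_lt_card (α := Subgroup.center Q)
        omega
      obtain ⟨z₀, hz₀⟩ := exists_prime_orderOf_dvd_card' (G := Subgroup.center Q) 2 (by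
        rw [hm]
        exact dvd_pow_self 2 hm0)
      obtain ⟨z, hz⟩ : ∃ z : A, z = ((z₀ : Q) : A) := ⟨_, rfl⟩
      have hzQ : z ∈ Q := by rw [hz]; exact (z₀ : Q).2
      have hzord : orderOf z = 2 := by
        rw [hz, Subgroup.orderOf_coe, Subgroup.orderOf_coe, hz₀]
      have hz1 : z ≠ 1 := by
        rintro rfl
        rw [orderOf_one] at hzord
        omega
      have hz2 : z * z = 1 := by
        rw [← pow_two, ← hzord, pow_orderOf_eq_one]
      have hzc : ∀ q ∈ Q, q * z = z * q := by
        intro q hq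
        have h1 := Subgroup.mem_center_iff.1 z₀.2 ⟨q, hq⟩
        rw [hz]
        exact congrArg Subtype.val h1
      -- the centraliser of `z`
      have hCinf := hB A hA hinf htor z hz1 hz2
      let C : Subgroup A := Subgroup.centralizer {z}
      have hCmem : ∀ g : A, g ∈ C ↔ g * z = z * g := by
        intro g
        rw [Subgroup.mem_centralizer_singleton_iff]
      have hCinf' : Infinite C := by
        have h1 : (C : Set A).Infinite := by
          refine hCinf.mono fun g hg => ?_
          exact (hCmem g).2 hg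
        exact h1.to_subtype
      have hKC : K C := hK.sub A C C.subtype C.subtype_injective hA
      have hzC : z ∈ C := (hCmem z).2 rfl
      have hQC : Q ≤ C := fun q hq => (hCmem q).2 (hzc q hq)
      let N : Subgroup C := Subgroup.zpowers (⟨z, hzC⟩ : C)
      have hNn : N.Normal := by
        refine ⟨fun x hx g => ?_⟩
        obtain ⟨k, rfl⟩ := Subgroup.mem_zpowers_iff.1 hx
        have h1 : g * (⟨z, hzC⟩ : C) = ⟨z, hzC⟩ * g := Subtype.ext ((hCmem g).1 g.2)
        have h2 : g * (⟨z, hzC⟩ : C) ^ k = (⟨z, hzC⟩ : C) ^ k * g :=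
          (Commute.zpow_right (show Commute g (⟨z, hzC⟩ : C) from h1) k)
        rw [h2, mul_inv_cancel_right]
        exact hx
      have hNfin : Finite N := by
        have h1 : IsOfFinOrder (⟨z, hzC⟩ : C) := by
          refine isOfFinOrder_iff_pow_eq_one.2 ⟨2, by norm_num, ?_⟩
          exact Subtype.ext (by rw [Subgroup.coe_pow, pow_two]; exact hz2)
        exact ((finite_zpowers (a := (⟨z, hzC⟩ : C))).2 h1).to_subtype
      have hinfq : Infinite (C ⧸ N) := by
        by_contra hcon
        rw [not_infinite_iff_finite] at hcon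
        have : Finite C := by
          have h1 := Subgroup.groupEquivQuotientProdSubgroup (s := N)
          exact Finite.of_equiv _ h1.symm
        exact not_finite C
      have hKq : K (C ⧸ N) := hK.quo C (C ⧸ N) (QuotientGroup.mk' N)
        (QuotientGroup.mk'_surjective N) hKC
      have htorq : ∀ g : C ⧸ N, IsOfFinOrder g := by
        intro g
        obtain ⟨c, rfl⟩ := QuotientGroup.mk'_surjective N g
        refine MonoidHom.isOfFinOrder _ ?_
        exact (Submonoid.isOfFinOrder_coe (H := C.toSubmonoid) (x := c)).1 (htor c)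
      let φ : Q →* C ⧸ N := (QuotientGroup.mk' N).comp (Subgroup.inclusion hQC)
      have hφP : IsPGroup 2 φ.range :=
        IsPGroup.of_surjective hQ φ.rangeRestrict φ.rangeRestrict_surjective
      have hφf : Finite φ.range := Finite.of_surjective _ φ.rangeRestrict_surjective
      have hφc : Nat.card φ.range ≤ n := by
        have h1 : Nat.card Q = Nat.card (Q ⧸ φ.ker) * Nat.card φ.ker :=
          Subgroup.card_eq_card_quotient_mul_card_subgroup _
        have h2 : Nat.card (Q ⧸ φ.ker) = Nat.card φ.range :=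
          Nat.card_congr (QuotientGroup.quotientKerEquivRange φ).toEquiv
        have h3 : 1 < Nat.card φ.ker := by
          have : Nontrivial φ.ker := by
            refine ⟨⟨⟨⟨z, hzQ⟩, ?_⟩, 1, ?_⟩⟩
            · rw [MonoidHom.mem_ker]
              show QuotientGroup.mk' N (Subgroup.inclusion hQC ⟨z, hzQ⟩) = 1
              rw [QuotientGroup.mk'_apply, QuotientGroup.eq_one_iff]
              exact Subgroup.mem_zpowers _
            · intro h
              apply hz1
              have h4 := congrArg (fun x : φ.ker => ((x : Q) : A)) h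
              exact h4
          exact Finite.one_lt_card
        have h4 : 0 < Nat.card φ.range := Nat.card_pos
        rw [h1, h2] at hc
        nlinarith
      have hS := ih (C ⧸ N) hKq hinfq htorq φ.range hφP hφf hφc
      -- the preimage
      have hL : {g : A | ∃ h : g ∈ C, (QuotientGroup.mk' N ⟨g, h⟩) ∈
          {x : C ⧸ N | ∀ q ∈ (φ.range : Set (C ⧸ N)), x * q = q * x}}.Infinite := by
        intro hcon
        apply hS
        have h1 : ({c : C | QuotientGroup.mk' N c ∈
            {x : C ⧸ N | ∀ q ∈ (φ.range : Set (C ⧸ N)), x * q = q * x}}).Finite := by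
          refine (hcon.preimage (f := fun c : C => (c : A))
            Subtype.val_injective.injOn).subset ?_
          intro c hc'
          exact ⟨c.2, hc'⟩
        refine (h1.image (QuotientGroup.mk' N)).subset ?_
        intro x hx
        obtain ⟨c, rfl⟩ := QuotientGroup.mk'_surjective N x
        exact ⟨c, hx, rfl⟩
      have hZf : (Subgroup.zpowers z : Set A).Finite :=
        finite_zpowers.2 (htor z)
      refine pig (Q := (Q : Set A)) (Set.toFinite _) hZf hL ?_
      rintro g ⟨hg, hg2⟩ q hq
      have h1 := hg2 (φ ⟨q, hq⟩) ⟨⟨q, hq⟩, rfl⟩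
      have h2 : (QuotientGroup.mk' N) (⟨g, hg⟩⁻¹ * (⟨q, hQC hq⟩ * ⟨g, hg⟩ * ⟨q, hQC hq⟩⁻¹)) =
          1 := by
        rw [map_mul, map_inv, map_mul, map_mul, map_inv]
        have h3 : QuotientGroup.mk' N ⟨g, hg⟩ * QuotientGroup.mk' N ⟨q, hQC hq⟩ =
          QuotientGroup.mk' N ⟨q, hQC hq⟩ * QuotientGroup.mk' N ⟨g, hg⟩ := h1
        rw [← h3]
        group
      rw [QuotientGroup.mk'_apply, QuotientGroup.eq_one_iff] at h2
      obtain ⟨k, hk⟩ := Subgroup.mem_zpowers_iff.1 h2
      have h4 := congrArg Subtype.val hk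
      refine Subgroup.mem_zpowers_iff.2 ⟨k, ?_⟩
      exact h4

end Pool.Agent.SHAT36
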