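import Pool.Agent.SHAT36.Ultra

/-!
# Almost regular involutions: from the maximality property to the contradiction
-/

set_option autoImplicit false

namespace Pool.Agent.SHAT36

open Set

/-- two involutions of a torsion group are conjugate or commute with a common involution -/
theorem dihedral {H : Type*} [Group H] (htor : ∀ g : H, IsOfFinOrder g) {t s : H}
    (ht2 : t * t = 1) (hs2 : s * s = 1) :
    (∃ y : H, y⁻¹ * t * y = s) ∨ ∃ z : H, z ≠ 1 ∧ z * z = 1 ∧ z * t = t * z ∧ z * s = s * z := by
  have hti : t⁻¹ = t := inv_eq_of_mul_eq_one_left ht2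
  have hsi : s⁻¹ = s := inv_eq_of_mul_eq_one_left hs2
  obtain ⟨u, hu⟩ : ∃ u : H, u = t * s := ⟨_, rfl⟩
  have htut : t * u * t = u⁻¹ := by
    rw [hu, mul_inv_rev, hsi, hti, ← mul_assoc, ht2, one_mul]
  have hpow : ∀ k : ℕ, t * u ^ k * t = (u ^ k)⁻¹ := by
    intro k
    have h1 : t * u ^ k * t⁻¹ = (t * u * t⁻¹) ^ k := (conj_pow).symm
    rw [hti, htut, inv_pow] at h1
    exact h1
  have hpos : 0 < orderOf u := (htor u).orderOf_pos
  rcases Nat.even_or_odd' (orderOf u) with ⟨r, hr | hr⟩
  · right
    have hr0 : 0 < r := by omega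
    have hz1 : u ^ r ≠ 1 := by
      intro h
      have := Nat.le_of_dvd hr0 (orderOf_dvd_of_pow_eq_one h)
      omega
    have hzz : u ^ r * u ^ r = 1 := by
      rw [← pow_add, show r + r = orderOf u by omega, pow_orderOf_eq_one]
    have hzi : (u ^ r)⁻¹ = u ^ r := inv_eq_of_mul_eq_one_left hzz
    have h1 : t * u ^ r * t = u ^ r := by rw [hpow, hzi]
    have h2 : u ^ r * t = t * u ^ r := by
      calc u ^ r * t = (t * t) * (u ^ r * t) := by rw [ht2, one_mul]
        _ = t * (t * u ^ r * t) := by group
        _ = t * u ^ r := by rw [h1]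
    have h3 : s = t * u := by rw [hu, ← mul_assoc, ht2, one_mul]
    have h4 : u * u ^ r = u ^ r * u := by rw [← pow_succ, ← pow_succ']
    have h5 : s * u ^ r = u ^ r * s := by
      rw [h3, mul_assoc, h4, ← mul_assoc, ← h2, mul_assoc]
    exact ⟨u ^ r, hz1, hzz, h2, h5.symm⟩
  · left
    refine ⟨u ^ (r + 1), ?_⟩
    have h2 : (u ^ (r + 1))⁻¹ * t = t * u ^ (r + 1) := by
      rw [← hpow (r + 1)]
      calc t * u ^ (r + 1) * t * t = t * u ^ (r + 1) * (t * t) := by group
        _ = t * u ^ (r + 1) := by rw [ht2, mul_one]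
    rw [h2, mul_assoc, ← pow_add, show r + 1 + (r + 1) = orderOf u + 1 by omega, pow_succ,
      pow_orderOf_eq_one, one_mul, hu, ← mul_assoc, ht2, one_mul]

/-- the property (M) (a nontrivial element whose cyclic group is normalised by an involution with
finite centraliser has finite centraliser) is impossible in an infinite torsion group with such an
involution -/
theorem false_of_M {H : Type*} [Group H] [Infinite H] (htor : ∀ g : H, IsOfFinOrder g)
    (hM : ∀ k e : H, k ≠ 1 → k * k = 1 → {g : H | g * k = k * g}.Finite → e ≠ 1 →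
      k * e * k ∈ Subgroup.zpowers e → {g : H | g * e = e * g}.Finite)
    {t : H} (ht1 : t ≠ 1) (ht2 : t * t = 1) (hC : {g : H | g * t = t * g}.Finite) : False := by
  -- an involution with finite centraliser: its centraliser consists of such elements
  have ha : ∀ k z : H, k ≠ 1 → k * k = 1 → {g : H | g * k = k * g}.Finite → z ≠ 1 →
      z * k = k * z → {g : H | g * z = z * g}.Finite := by
    intro k z h1 h2 h3 h4 h5
    refine hM k z h1 h2 h3 h4 ?_
    rw [← h5, mul_assoc, h2, mul_one]
    exact Subgroup.mem_zpowers z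
  -- every involution has finite centraliser
  have hb : ∀ k : H, k ≠ 1 → k * k = 1 → {g : H | g * k = k * g}.Finite := by
    intro k hk1 hk2
    rcases dihedral htor ht2 hk2 with ⟨y, hy⟩ | ⟨z, hz1, hzz, hzt, hzk⟩
    · refine (hC.preimage (f := fun g => y * g * y⁻¹) ?_).subset ?_
      · intro g _ g' _ h
        have h' : y * g * y⁻¹ = y * g' * y⁻¹ := h
        exact mul_left_cancel (mul_right_cancel h')
      · intro g hg
        have hg' : g * k = k * g := hg
        show y * g * y⁻¹ * t = t * (y * g * y⁻¹)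
        have h1 : y * k = t * y := by rw [← hy]; group
        calc y * g * y⁻¹ * t = y * g * (y⁻¹ * t * y) * y⁻¹ := by group
          _ = y * (g * k) * y⁻¹ := by rw [hy]; group
          _ = (y * k) * g * y⁻¹ := by rw [hg']; group
          _ = t * (y * g * y⁻¹) := by rw [h1]; group
    · exact ha z k hz1 hzz (ha t z ht1 ht2 hC hz1 hzt) hk1 hzk.symm
  refine ultra_contra ht2 hC (cofinite_prod htor ht2 hC fun z h1 h2 => ha t z ht1 ht2 hC h1 h2)
    fun j d h1 h2 h3 h4 => ?_
  refine hM j d h1 h2 (hb j h1 h2) h3 ?_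
  rw [h4]
  exact inv_mem (Subgroup.mem_zpowers d)

end Pool.Agent.SHAT36
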