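import Pool.Agent.SHAT36.Cent

/-!
# 2-groups of automorphisms, and the section without involutions
-/

set_option autoImplicit false

namespace Pool.Agent.SHAT36

open Set Pool.Agent.SHA

variable {K : (G : Type) → [Group G] → Prop}

theorem infinite_quot {C : Type*} [Group C] [Infinite C] (N : Subgroup C) [Finite N] :
    Infinite (C ⧸ N) := by
  by_contra hcon
  rw [not_infinite_iff_finite] at hcon
  have : Finite C := by
    have h1 := Subgroup.groupEquivQuotientProdSubgroup (s := N)
    exact Finite.of_equiv _ h1.symm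
  exact not_finite C

theorem conj_conj {G : Type*} [Group G] (φ : MulAut G) (g : G) :
    φ * MulAut.conj g * φ⁻¹ = MulAut.conj (φ g) := by
  ext x
  show φ (MulAut.conj g (φ⁻¹ x)) = MulAut.conj (φ g) x
  rw [MulAut.conj_apply, MulAut.conj_apply, map_mul, map_mul, map_inv, MulAut.apply_inv_self]

theorem mem_center_of_conj {G : Type*} [Group G] {g : G} (h : MulAut.conj g = 1) :
    g ∈ Subgroup.center G := by
  rw [Subgroup.mem_center_iff]
  intro x
  have h1 : MulAut.conj g x = x := by rw [h]; rfl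
  rw [MulAut.conj_apply] at h1
  calc x * g = (g * x * g⁻¹) * g := by rw [h1]
    _ = g * x := by group

theorem outer (hK : SHAClosed K) (hB : Base K)
    (hfin2 : ∀ (A : Type) [Group A], K A → IsPGroup 2 A → Finite A)
    (hab : ∀ (A : Type) [Group A], K A → (∀ a b : A, a * b = b * a) →
      (∀ g : A, IsOfFinOrder g) → Finite A)
    (G : Type) [Group G] (hG : K G) (hinf : Infinite G) (htor : ∀ g : G, IsOfFinOrder g)
    (Q : Subgroup (MulAut G)) (hQ : IsPGroup 2 Q) :
    Finite Q ∧ {g : G | ∀ φ ∈ (Q : Set (MulAut G)), φ g = g}.Infinite := by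
  have hKA : K (MulAut G) := hK.aut G hG
  have hQf : Finite Q := hfin2 Q (hK.sub _ Q Q.subtype Q.subtype_injective hKA) hQ
  refine ⟨hQf, ?_⟩
  have hZ : Finite (Subgroup.center G) := by
    refine hab (Subgroup.center G) (hK.sub _ _ (Subgroup.center G).subtype
      (Subgroup.center G).subtype_injective hG) ?_ ?_
    · intro a b
      exact Subtype.ext (Subgroup.mem_center_iff.1 b.2 a)
    · intro g
      exact (Submonoid.isOfFinOrder_coe (H := (Subgroup.center G).toSubmonoid) (x := g)).1
        (htor g)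
  have hZf : (Subgroup.center G : Set G).Finite := Set.toFinite _
  let I : Subgroup (MulAut G) := (MulAut.conj : G →* MulAut G).range
  have hIn : I.Normal := by
    refine ⟨?_⟩
    rintro _ ⟨g, rfl⟩ φ
    exact ⟨φ g, (conj_conj φ g).symm⟩
  -- fibres of `conj`
  have hfib : ∀ y : MulAut G, {g : G | MulAut.conj g = y}.Finite := by
    intro y
    by_cases hne : ∃ g₀ : G, MulAut.conj g₀ = y
    · obtain ⟨g₀, h0⟩ := hne
      refine (hZf.image (fun c => g₀ * c)).subset ?_
      intro g hg
      have hg' : MulAut.conj g = y := hg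
      refine ⟨g₀⁻¹ * g, ?_, by simp⟩
      apply mem_center_of_conj
      rw [map_mul, map_inv, h0, hg', inv_mul_cancel]
    · have : {g : G | MulAut.conj g = y} = ∅ :=
        eq_empty_of_forall_notMem fun g hg => hne ⟨g, hg⟩
      rw [this]
      exact finite_empty
  let A : Subgroup (MulAut G) := I ⊔ Q
  have hIinf : Infinite I := by
    by_contra hcon
    rw [not_infinite_iff_finite] at hcon
    have h1 : (I : Set (MulAut G)).Finite := Set.toFinite _
    have h2 : (univ : Set G).Finite := by
      refine (h1.biUnion fun y _ => hfib y).subset ?_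
      intro g _
      simp only [mem_iUnion]
      exact ⟨MulAut.conj g, ⟨g, rfl⟩, rfl⟩
    exact infinite_univ h2
  have hIA : I ≤ A := le_sup_left
  have hQA : Q ≤ A := le_sup_right
  have hAinf : Infinite A :=
    Infinite.of_injective (Subgroup.inclusion hIA) (Subgroup.inclusion_injective hIA)
  have hKA' : K A := hK.sub _ A A.subtype A.subtype_injective hKA
  have hAmem : ∀ a ∈ A, ∃ y ∈ I, ∃ z ∈ Q, y * z = a := fun a ha =>
    Subgroup.mem_sup_of_normal_left.1 ha
  have hAtor : ∀ a : A, IsOfFinOrder a := by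
    intro a
    obtain ⟨y, hy, z, hz, hyz⟩ := hAmem a a.2
    have hz1 : IsOfFinOrder (⟨z, hz⟩ : Q) := isOfFinOrder_of_finite _
    obtain ⟨n, hn, hzn⟩ := isOfFinOrder_iff_pow_eq_one.1 hz1
    have hzn' : z ^ n = 1 := congrArg Subtype.val hzn
    have h1 : (a : MulAut G) ^ n ∈ I := by
      rw [← QuotientGroup.eq_one_iff, QuotientGroup.mk_pow, ← hyz, QuotientGroup.mk_mul,
        (QuotientGroup.eq_one_iff y).2 hy, one_mul, ← QuotientGroup.mk_pow, hzn']
      rfl
    obtain ⟨g, hg⟩ := h1
    obtain ⟨m, hm, hgm⟩ := isOfFinOrder_iff_pow_eq_one.1 (htor g)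
    refine isOfFinOrder_iff_pow_eq_one.2 ⟨n * m, Nat.mul_pos hn hm, Subtype.ext ?_⟩
    rw [Subgroup.coe_pow, pow_mul, ← hg, ← map_pow, hgm, map_one]
    rfl
  have hQ' : IsPGroup 2 (Q.subgroupOf A) := hQ.comap_subtype
  have hQf' : Finite (Q.subgroupOf A) := by
    refine Finite.of_injective (fun x : Q.subgroupOf A => (⟨((x : A) : MulAut G), x.2⟩ : Q)) ?_
    intro x y h
    have h1 : ((x : A) : MulAut G) = ((y : A) : MulAut G) :=
      congrArg (fun u : Q => (u : MulAut G)) h
    exact Subtype.ext (Subtype.ext h1)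
  have hS := inner hK hB (Nat.card (Q.subgroupOf A)) A hKA' hAinf hAtor (Q.subgroupOf A) hQ' hQf'
    le_rfl
  -- the elements whose conjugations commute with `Q`
  have hT : {g : G | ∀ φ ∈ (Q : Set (MulAut G)),
      MulAut.conj g * φ = φ * MulAut.conj g}.Infinite := by
    intro hTf
    apply hS
    have hfibq : ∀ q : MulAut G, {x : A | (∀ p ∈ (Q.subgroupOf A : Set A), x * p = p * x) ∧
        (x : MulAut G) * q⁻¹ ∈ I}.Finite := by
      intro q
      by_cases hne : ∃ x₀ : A, (∀ p ∈ (Q.subgroupOf A : Set A), x₀ * p = p * x₀) ∧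
        (x₀ : MulAut G) * q⁻¹ ∈ I
      · obtain ⟨x₀, h1, h2⟩ := hne
        have h3 : {x : MulAut G | ∃ y : A, (y : MulAut G) = x ∧
            (∀ p ∈ (Q.subgroupOf A : Set A), y * p = p * y) ∧ x * q⁻¹ ∈ I}.Finite := by
          refine (hTf.image (fun g => MulAut.conj g * (x₀ : MulAut G))).subset ?_
          rintro x ⟨y, rfl, hy1, hy2⟩
          have h4 : (y : MulAut G) * (x₀ : MulAut G)⁻¹ ∈ I := by
            have h5 := mul_mem hy2 (inv_mem h2)
            have h6 : (y : MulAut G) * q⁻¹ * ((x₀ : MulAut G) * q⁻¹)⁻¹ =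
              (y : MulAut G) * (x₀ : MulAut G)⁻¹ := by group
            rwa [h6] at h5
          obtain ⟨g, hg⟩ := h4
          refine ⟨g, ?_, ?_⟩
          · intro φ hφ
            rw [hg]
            have e1 : (y : MulAut G) * φ = φ * (y : MulAut G) :=
              congrArg Subtype.val (hy1 ⟨φ, hQA hφ⟩ hφ)
            have e2 : (x₀ : MulAut G) * φ = φ * (x₀ : MulAut G) :=
              congrArg Subtype.val (h1 ⟨φ, hQA hφ⟩ hφ)
            have e3 : (x₀ : MulAut G)⁻¹ * φ = φ * (x₀ : MulAut G)⁻¹ := by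
              calc (x₀ : MulAut G)⁻¹ * φ
                  = (x₀ : MulAut G)⁻¹ * (φ * (x₀ : MulAut G)) * (x₀ : MulAut G)⁻¹ := by group
                _ = (x₀ : MulAut G)⁻¹ * ((x₀ : MulAut G) * φ) * (x₀ : MulAut G)⁻¹ := by
                    rw [e2]
                _ = φ * (x₀ : MulAut G)⁻¹ := by group
            rw [mul_assoc, e3, ← mul_assoc, e1, mul_assoc]
          · show MulAut.conj g * (x₀ : MulAut G) = y
            rw [hg]
            group
        refine (h3.preimage (f := fun x : A => (x : MulAut G))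
          Subtype.val_injective.injOn).subset ?_
        rintro x ⟨hx1, hx2⟩
        exact ⟨x, rfl, hx1, hx2⟩
      · have : {x : A | (∀ p ∈ (Q.subgroupOf A : Set A), x * p = p * x) ∧
            (x : MulAut G) * q⁻¹ ∈ I} = ∅ :=
          eq_empty_of_forall_notMem fun x hx => hne ⟨x, hx⟩
        rw [this]
        exact finite_empty
    have hQs : (Q : Set (MulAut G)).Finite := Set.toFinite _
    refine (hQs.biUnion fun q _ => hfibq q).subset ?_
    intro x hx
    obtain ⟨y, hy, z, hz, hyz⟩ := hAmem x x.2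
    simp only [mem_iUnion]
    refine ⟨z, hz, hx, ?_⟩
    rw [← hyz, mul_inv_cancel_right]
    exact hy
  refine pigAut (Set.toFinite _) hZf hT ?_
  intro g hg φ hφ
  apply mem_center_of_conj
  have h1 : MulAut.conj (φ g) = MulAut.conj g := by
    rw [← conj_conj, ← hg φ hφ, mul_inv_cancel_right]
  rw [map_mul, map_inv, h1, inv_mul_cancel]

theorem odd_section (hK : SHAClosed K) (hB : Base K)
    (hfin2 : ∀ (A : Type) [Group A], K A → IsPGroup 2 A → Finite A)
    (G : Type) [Group G] (hG : K G) (hinf : Infinite G) (htor : ∀ g : G, IsOfFinOrder g) :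
    ∃ (C : Subgroup G) (Z : Subgroup C) (_ : Z.Normal), Finite Z ∧ Z ≤ Subgroup.center C ∧
      Infinite (C ⧸ Z) ∧ ∀ x : C ⧸ Z, Odd (orderOf x) := by
  have : Fact (Nat.Prime 2) := ⟨Nat.prime_two⟩
  obtain ⟨S⟩ : Nonempty (Sylow 2 G) := inferInstance
  have hS2 : IsPGroup 2 (S : Subgroup G) := S.isPGroup'
  have hSf : Finite (S : Subgroup G) :=
    hfin2 _ (hK.sub G _ (S : Subgroup G).subtype (S : Subgroup G).subtype_injective hG) hS2
  let C : Subgroup G := Subgroup.centralizer ((S : Subgroup G) : Set G)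
  have hCmem : ∀ g : G, g ∈ C ↔ ∀ q ∈ ((S : Subgroup G) : Set G), g * q = q * g := by
    intro g
    rw [Subgroup.mem_centralizer_iff]
    exact ⟨fun h q hq => (h q hq).symm, fun h q hq => (h q hq).symm⟩
  have hCinf := inner hK hB (Nat.card (S : Subgroup G)) G hG hinf htor (S : Subgroup G) hS2 hSf
    le_rfl
  have hCinf' : Infinite C := by
    have h1 : (C : Set G).Infinite := hCinf.mono fun g hg => (hCmem g).2 hg
    exact h1.to_subtype
  let Z : Subgroup C := (S : Subgroup G).subgroupOf C
  have hcen : ∀ x ∈ Z, ∀ c : C, c * x = x * c := by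
    intro x hx c
    exact Subtype.ext ((hCmem c).1 c.2 x hx)
  have hZn : Z.Normal := by
    refine ⟨fun x hx g => ?_⟩
    rw [hcen x hx g, mul_inv_cancel_right]
    exact hx
  have hZf : Finite Z := by
    refine Finite.of_injective (fun x : Z => (⟨((x : C) : G), x.2⟩ : (S : Subgroup G))) ?_
    intro x y h
    have h1 : ((x : C) : G) = ((y : C) : G) :=
      congrArg (fun u : (S : Subgroup G) => (u : G)) h
    exact Subtype.ext (Subtype.ext h1)
  refine ⟨C, Z, hZn, hZf, ?_, infinite_quot Z, ?_⟩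
  · intro x hx
    rw [Subgroup.mem_center_iff]
    exact fun c => hcen x hx c
  · intro x
    by_contra hodd
    rw [Nat.not_odd_iff_even] at hodd
    obtain ⟨m, hm⟩ := hodd
    obtain ⟨c, rfl⟩ := QuotientGroup.mk'_surjective Z x
    have hfo : IsOfFinOrder (QuotientGroup.mk' Z c) := by
      refine MonoidHom.isOfFinOrder _ ?_
      exact (Submonoid.isOfFinOrder_coe (H := C.toSubmonoid) (x := c)).1 (htor c)
    have hpos := hfo.orderOf_pos
    have hm0 : 0 < m := by omega
    have hd1 : (QuotientGroup.mk' Z (c ^ m)) ≠ 1 := by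
      rw [map_pow]
      intro h
      have := Nat.le_of_dvd hm0 (orderOf_dvd_of_pow_eq_one h)
      omega
    have hd2 : QuotientGroup.mk' Z (c ^ m * c ^ m) = 1 := by
      rw [← pow_add, ← hm, map_pow, pow_orderOf_eq_one]
    generalize c ^ m = d at hd1 hd2
    rw [QuotientGroup.mk'_apply, QuotientGroup.eq_one_iff] at hd2
    apply hd1
    rw [QuotientGroup.mk'_apply, QuotientGroup.eq_one_iff]
    have hdd : (d : G) * d ∈ (S : Subgroup G) := hd2
    obtain ⟨j, hj⟩ := hS2 ⟨(d : G) * d, hdd⟩
    have hj' : ((d : G) * d) ^ 2 ^ j = 1 := congrArg Subtype.val hj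
    have hj2 : (d : G) ^ 2 ^ (j + 1) = 1 := by
      rw [pow_succ', pow_mul, pow_two]
      exact hj'
    have hzp : IsPGroup 2 (Subgroup.zpowers (d : G)) := by
      rintro ⟨y, hy⟩
      obtain ⟨i, rfl⟩ := Subgroup.mem_zpowers_iff.1 hy
      refine ⟨j + 1, Subtype.ext ?_⟩
      show ((d : G) ^ i) ^ 2 ^ (j + 1) = 1
      rw [← zpow_natCast, ← zpow_mul, mul_comm, zpow_mul, zpow_natCast, hj2, one_zpow]
    have hnorm : Subgroup.zpowers (d : G) ≤ Subgroup.normalizer ((S : Subgroup G) : Set G) := by
      rw [Subgroup.zpowers_le, Subgroup.mem_normalizer_iff]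
      intro q
      constructor
      · intro hq
        have h1 : (d : G) * q * (d : G)⁻¹ = q := by
          rw [(hCmem d).1 d.2 q hq, mul_inv_cancel_right]
        rw [h1]
        exact hq
      · intro hq
        have h1 := (hCmem d).1 d.2 _ hq
        have h2 : q = (d : G) * q * (d : G)⁻¹ := by
          have h3 : (d : G) * ((d : G) * q * (d : G)⁻¹) * (d : G)⁻¹ =
            ((d : G) * q * (d : G)⁻¹) * (d : G) * (d : G)⁻¹ := by rw [h1]
          have h4 : (d : G)⁻¹ * ((d : G) * ((d : G) * q * (d : G)⁻¹) * (d : G)⁻¹) * (d : G) =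
              (d : G)⁻¹ * (((d : G) * q * (d : G)⁻¹) * (d : G) * (d : G)⁻¹) * (d : G) := by
            rw [h3]
          have h5 : (d : G) * q * (d : G)⁻¹ = q := by
            have e1 : (d : G)⁻¹ * ((d : G) * ((d : G) * q * (d : G)⁻¹) * (d : G)⁻¹) * (d : G) =
              (d : G) * q * (d : G)⁻¹ := by group
            have e2 : (d : G)⁻¹ * (((d : G) * q * (d : G)⁻¹) * (d : G) * (d : G)⁻¹) * (d : G) =
              q := by group
            rw [e1, e2] at h4
            exact h4
          exact h5.symm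
        rw [h2]
        exact hq
    have hsup := IsPGroup.to_sup_of_normal_right' hzp hS2 hnorm
    have hmax := S.is_maximal' hsup le_sup_right
    have hdS : (d : G) ∈ (S : Subgroup G) := by
      have h1 : (d : G) ∈ Subgroup.zpowers (d : G) ⊔ (S : Subgroup G) :=
        Subgroup.mem_sup_left (Subgroup.mem_zpowers _)
      rw [hmax] at h1
      exact h1
    exact hdS

end Pool.Agent.SHAT36
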