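import Pool.Agent.SHAT36.Outer

/-!
# 2-groups of automorphisms: the form with the hypothesis on the subgroups of `MulAut G`
-/

set_option autoImplicit false

namespace Pool.Agent.SHAT36

open Set Pool.Agent.SHA

theorem outer_lit {G : Type} [Group G] [Infinite G] (htor : ∀ x : G, IsOfFinOrder x)
    (hZ : Finite (Subgroup.center G)) (Q : Subgroup (MulAut G)) (hQ : IsPGroup 2 Q)
    (hQf : Finite Q)
    (hin : ∀ A : Subgroup (MulAut G), Infinite A → (∀ x : A, IsOfFinOrder x) →
      ∀ P : Subgroup A, IsPGroup 2 P → {x : A | ∀ q ∈ P, x * q = q * x}.Infinite) :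
    {g : G | ∀ α ∈ Q, α g = g}.Infinite := by
  have hZf : (Subgroup.center G : Set G).Finite := Set.toFinite _
  let I : Subgroup (MulAut G) := (MulAut.conj : G →* MulAut G).range
  have hIn : I.Normal := by
    refine ⟨?_⟩
    rintro _ ⟨g, rfl⟩ φ
    exact ⟨φ g, (conj_conj φ g).symm⟩
  -- fibres of `conj`
  have hfib : ∀ y : MulAut G, {g : G | MulAut.conj g = y}.Finite := by
    intro y
    by_cases hne : ∃ g₀ : G, MulAut.conj g₀ = y
    · obtain ⟨g₀, h0⟩ := hne
      refine (hZf.image (fun c => g₀ * c)).subset ?_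
      intro g hg
      have hg' : MulAut.conj g = y := hg
      refine ⟨g₀⁻¹ * g, ?_, by simp⟩
      apply mem_center_of_conj
      rw [map_mul, map_inv, h0, hg', inv_mul_cancel]
    · have : {g : G | MulAut.conj g = y} = ∅ :=
        eq_empty_of_forall_notMem fun g hg => hne ⟨g, hg⟩
      rw [this]
      exact finite_empty
  let A : Subgroup (MulAut G) := I ⊔ Q
  have hIinf : Infinite I := by
    by_contra hcon
    rw [not_infinite_iff_finite] at hcon
    have h1 : (I : Set (MulAut G)).Finite := Set.toFinite _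
    have h2 : (univ : Set G).Finite := by
      refine (h1.biUnion fun y _ => hfib y).subset ?_
      intro g _
      simp only [mem_iUnion]
      exact ⟨MulAut.conj g, ⟨g, rfl⟩, rfl⟩
    exact infinite_univ h2
  have hIA : I ≤ A := le_sup_left
  have hQA : Q ≤ A := le_sup_right
  have hAinf : Infinite A :=
    Infinite.of_injective (Subgroup.inclusion hIA) (Subgroup.inclusion_injective hIA)
  have hAmem : ∀ a ∈ A, ∃ y ∈ I, ∃ z ∈ Q, y * z = a := fun a ha =>
    Subgroup.mem_sup_of_normal_left.1 ha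
  have hAtor : ∀ a : A, IsOfFinOrder a := by
    intro a
    obtain ⟨y, hy, z, hz, hyz⟩ := hAmem a a.2
    have hz1 : IsOfFinOrder (⟨z, hz⟩ : Q) := isOfFinOrder_of_finite _
    obtain ⟨n, hn, hzn⟩ := isOfFinOrder_iff_pow_eq_one.1 hz1
    have hzn' : z ^ n = 1 := congrArg Subtype.val hzn
    have h1 : (a : MulAut G) ^ n ∈ I := by
      rw [← QuotientGroup.eq_one_iff, QuotientGroup.mk_pow, ← hyz, QuotientGroup.mk_mul,
        (QuotientGroup.eq_one_iff y).2 hy, one_mul, ← QuotientGroup.mk_pow, hzn']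
      rfl
    obtain ⟨g, hg⟩ := h1
    obtain ⟨m, hm, hgm⟩ := isOfFinOrder_iff_pow_eq_one.1 (htor g)
    refine isOfFinOrder_iff_pow_eq_one.2 ⟨n * m, Nat.mul_pos hn hm, Subtype.ext ?_⟩
    rw [Subgroup.coe_pow, pow_mul, ← hg, ← map_pow, hgm, map_one]
    rfl
  have hQ' : IsPGroup 2 (Q.subgroupOf A) := hQ.comap_subtype
  have hQf' : Finite (Q.subgroupOf A) := by
    refine Finite.of_injective (fun x : Q.subgroupOf A => (⟨((x : A) : MulAut G), x.2⟩ : Q)) ?_
    intro x y h
    have h1 : ((x : A) : MulAut G) = ((y : A) : MulAut G) :=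
      congrArg (fun u : Q => (u : MulAut G)) h
    exact Subtype.ext (Subtype.ext h1)
  have hS := hin A hAinf hAtor (Q.subgroupOf A) hQ'
  -- the elements whose conjugations commute with `Q`
  have hT : {g : G | ∀ φ ∈ (Q : Set (MulAut G)),
      MulAut.conj g * φ = φ * MulAut.conj g}.Infinite := by
    intro hTf
    apply hS
    have hfibq : ∀ q : MulAut G, {x : A | (∀ p ∈ Q.subgroupOf A, x * p = p * x) ∧
        (x : MulAut G) * q⁻¹ ∈ I}.Finite := by
      intro q
      by_cases hne : ∃ x₀ : A, (∀ p ∈ Q.subgroupOf A, x₀ * p = p * x₀) ∧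
        (x₀ : MulAut G) * q⁻¹ ∈ I
      · obtain ⟨x₀, h1, h2⟩ := hne
        have h3 : {x : MulAut G | ∃ y : A, (y : MulAut G) = x ∧
            (∀ p ∈ Q.subgroupOf A, y * p = p * y) ∧ x * q⁻¹ ∈ I}.Finite := by
          refine (hTf.image (fun g => MulAut.conj g * (x₀ : MulAut G))).subset ?_
          rintro x ⟨y, rfl, hy1, hy2⟩
          have h4 : (y : MulAut G) * (x₀ : MulAut G)⁻¹ ∈ I := by
            have h5 := mul_mem hy2 (inv_mem h2)
            have h6 : (y : MulAut G) * q⁻¹ * ((x₀ : MulAut G) * q⁻¹)⁻¹ =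
              (y : MulAut G) * (x₀ : MulAut G)⁻¹ := by group
            rwa [h6] at h5
          obtain ⟨g, hg⟩ := h4
          refine ⟨g, ?_, ?_⟩
          · intro φ hφ
            rw [hg]
            have e1 : (y : MulAut G) * φ = φ * (y : MulAut G) :=
              congrArg Subtype.val (hy1 ⟨φ, hQA hφ⟩ hφ)
            have e2 : (x₀ : MulAut G) * φ = φ * (x₀ : MulAut G) :=
              congrArg Subtype.val (h1 ⟨φ, hQA hφ⟩ hφ)
            have e3 : (x₀ : MulAut G)⁻¹ * φ = φ * (x₀ : MulAut G)⁻¹ := by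
              calc (x₀ : MulAut G)⁻¹ * φ
                  = (x₀ : MulAut G)⁻¹ * (φ * (x₀ : MulAut G)) * (x₀ : MulAut G)⁻¹ := by group
                _ = (x₀ : MulAut G)⁻¹ * ((x₀ : MulAut G) * φ) * (x₀ : MulAut G)⁻¹ := by
                    rw [e2]
                _ = φ * (x₀ : MulAut G)⁻¹ := by group
            rw [mul_assoc, e3, ← mul_assoc, e1, mul_assoc]
          · show MulAut.conj g * (x₀ : MulAut G) = y
            rw [hg]
            group
        refine (h3.preimage (f := fun x : A => (x : MulAut G))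
          Subtype.val_injective.injOn).subset ?_
        rintro x ⟨hx1, hx2⟩
        exact ⟨x, rfl, hx1, hx2⟩
      · have : {x : A | (∀ p ∈ Q.subgroupOf A, x * p = p * x) ∧
            (x : MulAut G) * q⁻¹ ∈ I} = ∅ :=
          eq_empty_of_forall_notMem fun x hx => hne ⟨x, hx⟩
        rw [this]
        exact finite_empty
    have hQs : (Q : Set (MulAut G)).Finite := Set.toFinite _
    refine (hQs.biUnion fun q _ => hfibq q).subset ?_
    intro x hx
    obtain ⟨y, hy, z, hz, hyz⟩ := hAmem x x.2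
    simp only [mem_iUnion]
    refine ⟨z, hz, hx, ?_⟩
    rw [← hyz, mul_inv_cancel_right]
    exact hy
  refine pigAut (Set.toFinite _) hZf hT ?_
  intro g hg φ hφ
  apply mem_center_of_conj
  have h1 : MulAut.conj (φ g) = MulAut.conj g := by
    rw [← conj_conj, ← hg φ hφ, mul_inv_cancel_right]
  rw [map_mul, map_inv, h1, inv_mul_cancel]

end Pool.Agent.SHAT36
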