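import Mathlib

/-!
# Almost regular involutions: the ultrafilter step
-/

set_option autoImplicit false

namespace Pool.Agent.SHAT36

open Filter Set

/-- conjugates: the set of the `g` with `g⁻¹ t g = s` is finite if the centraliser of `t` is -/
theorem conj_fibre_finite {H : Type*} [Group H] {t : H} (hC : {g : H | g * t = t * g}.Finite)
    (s : H) : {g : H | g⁻¹ * t * g = s}.Finite := by
  by_cases h : ∃ g₀ : H, g₀⁻¹ * t * g₀ = s
  · obtain ⟨g₀, h0⟩ := h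
    refine (hC.image (fun c => c * g₀)).subset ?_
    intro g hg
    have hg' : g⁻¹ * t * g = s := hg
    refine ⟨g * g₀⁻¹, ?_, by simp⟩
    show g * g₀⁻¹ * t = t * (g * g₀⁻¹)
    have h1 : g₀⁻¹ * t * g₀ = g⁻¹ * t * g := by rw [h0, hg']
    calc g * g₀⁻¹ * t = g * (g₀⁻¹ * t * g₀) * g₀⁻¹ := by group
      _ = g * (g⁻¹ * t * g) * g₀⁻¹ := by rw [h1]
      _ = t * (g * g₀⁻¹) := by group
  · have : {g : H | g⁻¹ * t * g = s} = ∅ := by
      ext g
      rw [mem_empty_iff_false, iff_false]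
      exact fun hg => h ⟨g, hg⟩
    rw [this]
    exact finite_empty

/-- in a torsion group in which all nontrivial elements of the (finite) centraliser of the
involution `t` have finite centraliser, all but finitely many elements are `c x` with `c`
commuting with `t` and `x` inverted by `t` -/
theorem cofinite_prod {H : Type*} [Group H] (htor : ∀ g : H, IsOfFinOrder g) {t : H}
    (ht2 : t * t = 1) (hC : {g : H | g * t = t * g}.Finite)
    (hz : ∀ z : H, z ≠ 1 → z * t = t * z → {g : H | g * z = z * g}.Finite) :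
    {g : H | ¬ ∃ c x : H, c * t = t * c ∧ t * x * t = x⁻¹ ∧ g = c * x}.Finite := by
  have hbig : (⋃ z ∈ {z : H | z ≠ 1 ∧ z * t = t * z},
      ⋃ s ∈ {s : H | s * z = z * s}, {g : H | g⁻¹ * t * g = s}).Finite := by
    refine Finite.biUnion (hC.subset fun z hz => hz.2) fun z h1 => ?_
    exact Finite.biUnion (hz z h1.1 h1.2) fun s _ => conj_fibre_finite hC s
  refine hbig.subset ?_
  intro g hg
  by_contra hcon
  apply hg
  have hti : t⁻¹ = t := inv_eq_of_mul_eq_one_left ht2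
  obtain ⟨s, hs⟩ : ∃ s : H, s = g⁻¹ * t * g := ⟨_, rfl⟩
  have hss : s * s = 1 := by
    rw [hs]
    calc g⁻¹ * t * g * (g⁻¹ * t * g) = g⁻¹ * (t * t) * g := by group
      _ = 1 := by rw [ht2]; group
  have hsi : s⁻¹ = s := inv_eq_of_mul_eq_one_left hss
  obtain ⟨u, hu⟩ : ∃ u : H, u = t * s := ⟨_, rfl⟩
  have htut : t * u * t = u⁻¹ := by
    rw [hu, mul_inv_rev, hsi, hti, ← mul_assoc, ht2, one_mul]
  have hpow : ∀ k : ℕ, t * u ^ k * t = (u ^ k)⁻¹ := by
    intro k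
    have h1 : t * u ^ k * t⁻¹ = (t * u * t⁻¹) ^ k := (conj_pow).symm
    rw [hti, htut, inv_pow] at h1
    exact h1
  have hpos : 0 < orderOf u := (htor u).orderOf_pos
  rcases Nat.even_or_odd' (orderOf u) with ⟨r, hr | hr⟩
  · -- even order
    exfalso
    apply hcon
    have hr0 : 0 < r := by omega
    have hz1 : u ^ r ≠ 1 := by
      intro h
      have := Nat.le_of_dvd hr0 (orderOf_dvd_of_pow_eq_one h)
      omega
    have hzz : u ^ r * u ^ r = 1 := by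
      rw [← pow_add, show r + r = orderOf u by omega, pow_orderOf_eq_one]
    have hzi : (u ^ r)⁻¹ = u ^ r := inv_eq_of_mul_eq_one_left hzz
    have h1 : t * u ^ r * t = u ^ r := by rw [hpow, hzi]
    have h2 : u ^ r * t = t * u ^ r := by
      calc u ^ r * t = (t * t) * (u ^ r * t) := by rw [ht2, one_mul]
        _ = t * (t * u ^ r * t) := by group
        _ = t * u ^ r := by rw [h1]
    have h3 : s = t * u := by rw [hu, ← mul_assoc, ht2, one_mul]
    have h4 : u * u ^ r = u ^ r * u := by rw [← pow_succ, ← pow_succ']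
    have h5 : s * u ^ r = u ^ r * s := by
      rw [h3, mul_assoc, h4, ← mul_assoc, ← h2, mul_assoc]
    simp only [mem_iUnion]
    exact ⟨u ^ r, ⟨hz1, h2⟩, s, h5, hs.symm⟩
  · -- odd order
    refine ⟨g * (u ^ (r + 1))⁻¹, u ^ (r + 1), ?_, hpow _, by simp⟩
    have h1 : (u ^ (r + 1))⁻¹ * t * u ^ (r + 1) = s := by
      have h2 : (u ^ (r + 1))⁻¹ * t = t * u ^ (r + 1) := by
        rw [← hpow (r + 1)]
        calc t * u ^ (r + 1) * t * t = t * u ^ (r + 1) * (t * t) := by group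
          _ = t * u ^ (r + 1) := by rw [ht2, mul_one]
      rw [h2, mul_assoc, ← pow_add, show r + 1 + (r + 1) = orderOf u + 1 by omega, pow_succ,
        pow_orderOf_eq_one, one_mul, hu, ← mul_assoc, ht2, one_mul]
    calc g * (u ^ (r + 1))⁻¹ * t
        = g * ((u ^ (r + 1))⁻¹ * t * u ^ (r + 1)) * (u ^ (r + 1))⁻¹ := by group
      _ = g * s * (u ^ (r + 1))⁻¹ := by rw [h1]
      _ = t * (g * (u ^ (r + 1))⁻¹) := by rw [hs]; group

/-- the contradiction -/
theorem ultra_contra {H : Type*} [Group H] [Infinite H] {t : H} (ht2 : t * t = 1)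
    (hC : {g : H | g * t = t * g}.Finite)
    (hcof : {g : H | ¬ ∃ c x : H, c * t = t * c ∧ t * x * t = x⁻¹ ∧ g = c * x}.Finite)
    (hinv : ∀ j d : H, j ≠ 1 → j * j = 1 → d ≠ 1 → j * d * j = d⁻¹ →
      {g : H | g * d = d * g}.Finite) : False := by
  have hti : t⁻¹ = t := inv_eq_of_mul_eq_one_left ht2
  set X : Set H := {x | t * x * t = x⁻¹} with hX
  set C : Set H := {g | g * t = t * g} with hCd
  have hXinf : X.Infinite := by
    intro hfin
    have h1 : (univ : Set H).Finite := by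
      refine ((hC.image2 (fun c x => c * x) hfin).union hcof).subset ?_
      intro g _
      by_cases hg : ∃ c x : H, c * t = t * c ∧ t * x * t = x⁻¹ ∧ g = c * x
      · obtain ⟨c, x, h1, h2, h3⟩ := hg
        exact Or.inl ⟨c, h1, x, h2, h3.symm⟩
      · exact Or.inr hg
    exact infinite_univ h1
  have : (cofinite ⊓ 𝓟 X).NeBot := hXinf.cofinite_inf_principal_neBot
  obtain ⟨U, hU⟩ : ∃ U : Ultrafilter H, (U : Filter H) ≤ cofinite ⊓ 𝓟 X :=
    ⟨Ultrafilter.of _, Ultrafilter.of_le _⟩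
  have hUX : X ∈ U := hU (mem_inf_of_right (mem_principal_self X))
  have hUfin : ∀ S : Set H, S ∈ U → S.Infinite := by
    intro S hS hfin
    have h1 : Sᶜ ∈ U := hU (mem_inf_of_left hfin.compl_mem_cofinite)
    have h2 : S ∩ Sᶜ ∈ U := inter_mem hS h1
    rw [inter_compl_self] at h2
    exact U.empty_notMem h2
  have hUcof : ∀ S : Set H, Sᶜ.Finite → S ∈ U := fun S hS =>
    hU (mem_inf_of_left (mem_cofinite.2 hS))
  have key : ∀ a : H, ∃ c ∈ C, {b : H | c⁻¹ * (a * b) ∈ X} ∈ U := by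
    intro a
    rw [← Ultrafilter.finite_biUnion_mem_iff hC]
    apply hUcof
    refine (hcof.preimage (f := fun b => a * b) (mul_right_injective a).injOn).subset ?_
    intro b hb
    show ¬ ∃ c x : H, c * t = t * c ∧ t * x * t = x⁻¹ ∧ a * b = c * x
    rintro ⟨c, x, h1, h2, h3⟩
    apply hb
    simp only [mem_iUnion]
    refine ⟨c, h1, ?_⟩
    show c⁻¹ * (a * b) ∈ X
    rw [h3, inv_mul_cancel_left]
    exact h2
  choose c hc1 hc2 using key
  obtain ⟨c₀, hc₀, hS⟩ : ∃ c₀ ∈ C, {a : H | c a = c₀} ∈ U := by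
    rw [← Ultrafilter.finite_biUnion_mem_iff hC]
    have : (⋃ c₀ ∈ C, {a : H | c a = c₀}) = univ := by
      refine eq_univ_of_forall fun a => ?_
      simp only [mem_iUnion]
      exact ⟨c a, hc1 a, rfl⟩
    rw [this]
    exact univ_mem
  have hS2 : {a : H | c a = c₀} ∩ X ∩ {t}ᶜ ∈ U :=
    inter_mem (inter_mem hS hUX) (hUcof _ (by rw [compl_compl]; exact finite_singleton t))
  obtain ⟨a, ⟨ha1, ha2⟩, ha3⟩ := (hUfin _ hS2).nonempty
  obtain ⟨a', ⟨⟨ha1', ha2'⟩, ha3'⟩, hne⟩ := ((hUfin _ hS2).sdiff (finite_singleton a)).nonempty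
  have hat : a ≠ t := ha3
  have hne' : a' ≠ a := hne
  have hT : {b : H | c₀⁻¹ * (a * b) ∈ X} ∩ {b : H | c₀⁻¹ * (a' * b) ∈ X} ∩ X ∈ U := by
    have h1 := hc2 a
    have h2 := hc2 a'
    rw [show c a = c₀ from ha1] at h1
    rw [show c a' = c₀ from ha1'] at h2
    exact inter_mem (inter_mem h1 h2) hUX
  refine hUfin _ hT ?_
  have hta : t * a * t = a⁻¹ := ha2
  have hta' : t * a' * t = a'⁻¹ := ha2'
  have hfin : {g : H | g * (a⁻¹ * a') = a⁻¹ * a' * g}.Finite := by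
    refine hinv (t * a) (a⁻¹ * a') ?_ ?_ ?_ ?_
    · intro h
      apply hat
      rw [← hti]
      exact (inv_eq_of_mul_eq_one_right h).symm
    · rw [← mul_assoc, hta, inv_mul_cancel]
    · intro h
      exact hne' (inv_mul_eq_one.1 h).symm
    · calc t * a * (a⁻¹ * a') * (t * a) = (t * a' * t) * a := by group
        _ = a'⁻¹ * a := by rw [hta']
        _ = (a⁻¹ * a')⁻¹ := by group
  have hc₀' : c₀ * t = t * c₀ := hc₀
  have hct : t * c₀⁻¹ * t = c₀⁻¹ := by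
    have h1 : t * c₀⁻¹ = c₀⁻¹ * t := by
      calc t * c₀⁻¹ = c₀⁻¹ * (c₀ * t) * c₀⁻¹ := by group
        _ = c₀⁻¹ * (t * c₀) * c₀⁻¹ := by rw [hc₀']
        _ = c₀⁻¹ * t := by group
    rw [h1, mul_assoc, ht2, mul_one]
  refine (hfin.preimage (f := fun b => b * c₀⁻¹) (mul_left_injective c₀⁻¹).injOn).subset ?_
  rintro b ⟨⟨hb1, hb2⟩, hb3⟩
  have hb3' : t * b * t = b⁻¹ := hb3
  have expand : ∀ a : H, t * a * t = a⁻¹ → c₀⁻¹ * (a * b) ∈ X →
      c₀⁻¹ * a⁻¹ * b⁻¹ = b⁻¹ * a⁻¹ * c₀ := by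
    intro a h1 h2
    have h3 : t * (c₀⁻¹ * (a * b)) * t = (c₀⁻¹ * (a * b))⁻¹ := h2
    calc c₀⁻¹ * a⁻¹ * b⁻¹ = (t * c₀⁻¹ * t) * (t * a * t) * (t * b * t) := by
          rw [hct, h1, hb3']
      _ = t * c₀⁻¹ * (t * t) * a * (t * t) * b * t := by group
      _ = t * (c₀⁻¹ * (a * b)) * t := by rw [ht2]; group
      _ = (c₀⁻¹ * (a * b))⁻¹ := h3
      _ = b⁻¹ * a⁻¹ * c₀ := by group
  have e1 := expand a hta hb1
  have e2 := expand a' hta' hb2
  show b * c₀⁻¹ * (a⁻¹ * a') = a⁻¹ * a' * (b * c₀⁻¹)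
  have e3 : c₀⁻¹ * a⁻¹ * a' * c₀ = b⁻¹ * a⁻¹ * a' * b := by
    calc c₀⁻¹ * a⁻¹ * a' * c₀ = (c₀⁻¹ * a⁻¹ * b⁻¹) * (c₀⁻¹ * a'⁻¹ * b⁻¹)⁻¹ := by group
      _ = (b⁻¹ * a⁻¹ * c₀) * (b⁻¹ * a'⁻¹ * c₀)⁻¹ := by rw [e1, e2]
      _ = b⁻¹ * a⁻¹ * a' * b := by group
  calc b * c₀⁻¹ * (a⁻¹ * a') = b * (c₀⁻¹ * a⁻¹ * a' * c₀) * c₀⁻¹ := by group
    _ = b * (b⁻¹ * a⁻¹ * a' * b) * c₀⁻¹ := by rw [e3]
    _ = a⁻¹ * a' * (b * c₀⁻¹) := by group

end Pool.Agent.SHAT36
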